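import Pool.Agent.Helper82.PN.All
import Pool.Agent.Helper82.PN.Fin

/-!
# Sums `x + y = n` with `x ^ 2 + x y + y ^ 2` an almost prime `P_3` and `x` small
-/

set_option autoImplicit false

noncomputable section

namespace Pool.Agent.Helper82.Kept.ShortRangeP3

open Finset

open Classical in
/-- The pairs `(x, y)` of positive integers with `x ≤ y`, `x + y = n` and `x ≤ n ^ (4/5)`, such that
`x ^ 2 + x y + y ^ 2` has at most three prime factors, counted with multiplicity. -/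
def pairs (n : ℕ) : Finset (ℕ × ℕ) := (antidiagonal n).filter (fun q => 1 ≤ q.1 ∧ q.1 ≤ q.2 ∧
  (q.1 : ℝ) ≤ (n : ℝ) ^ (4 / 5 : ℝ) ∧ ArithmeticFunction.cardFactors (q.1 ^ 2 + q.1 * q.2 + q.2 ^ 2) ≤ 3)

/-- There are `c > 0` and `n₀` such that every `n ≥ n₀` has at least `c n ^ (4/5) / (log n) ^ 3` such pairs. -/
theorem result : ∃ c : ℝ, 0 < c ∧ ∃ n₀ : ℕ, ∀ n : ℕ, n₀ ≤ n →
    c * (n : ℝ) ^ (4 / 5 : ℝ) / Real.log n ^ 3 ≤ ((pairs n).card : ℝ) :=
  Pool.Agent.Helper82.PN.fin Pool.Agent.Helper82.PN.pFNA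

end Pool.Agent.Helper82.Kept.ShortRangeP3
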